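import Pool.Agent.Helper48.BDu.SPC
import Pool.Agent.Helper48.BDu.THR

/-!
# BOND, dual side: the sides of a separation (used in SPR and SPF)
-/

set_option autoImplicit false
set_option linter.unusedSectionVars false

namespace BDu

variable {W E : Type} [DecidableEq W] [DecidableEq E] {D : BDu W E}

theorem spx_symm {S E1 E2 : Finset E} {a b : W} (h : D.Sep S E1 E2 a b) :
    D.Sep S E2 E1 a b :=
  ⟨by rw [Finset.union_comm]; exact h.un, h.dis.symm, h.ne, by rw [Finset.inter_comm]; exact h.vs,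
    h.np2, h.np1⟩

theorem spx_term {S E1 E2 : Finset E} {a b : W} (hS : D.TwoC S)
    (hs : D.Sep S E1 E2 a b) : D.Term E1 a b :=
  TwoC.term (F := E1) (G := E2) (by rw [hs.un]; exact hS) hs.ne hs.vs

theorem spx_mem {P : Finset E} {a b : W} (hP : D.IsPth P a b) : a ∈ D.VS P ∧ b ∈ D.VS P :=
  ⟨dg_pos.mp (by rw [hP.dgs]; exact Nat.one_pos), dg_pos.mp (by rw [hP.dgt]; exact Nat.one_pos)⟩

theorem spx_common {S E1 E2 : Finset E} {a b : W} (hs : D.Sep S E1 E2 a b) {F1 F2 : Finset E}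
    (h1 : F1 ⊆ E1) (h2 : F2 ⊆ E2) {v : W} (hv1 : v ∈ D.VS F1) (hv2 : v ∈ D.VS F2) :
    v = a ∨ v = b := by
  have : v ∈ D.VS E1 ∩ D.VS E2 := Finset.mem_inter.mpr ⟨VS_mono h1 hv1, VS_mono h2 hv2⟩
  rw [hs.vs] at this
  simpa using this

/-- What is left of the side `E1` is a piece. -/
theorem spx_piece {S E1 E2 F1 P2 : Finset E} {a b : W} (hs : D.Sep S E1 E2 a b)
    (hP2 : D.IsPth P2 a b) (hP2E : P2 ⊆ E2) (hF1 : F1 ⊆ E1) (h : D.TwoC (F1 ∪ P2)) :
    D.Term F1 a b := by
  have hd : Disjoint F1 P2 := (hs.dis.mono_left hF1).mono_right hP2E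
  obtain ⟨ha, hb⟩ := spx_mem hP2
  have ha1 : a ∈ D.VS F1 := by
    have := h.two_le_dg (mem_VS_union.mpr (Or.inr ha))
    rw [dg_union hd, hP2.dgs] at this
    exact dg_pos.mp (by omega)
  have hb1 : b ∈ D.VS F1 := by
    have := h.two_le_dg (mem_VS_union.mpr (Or.inr hb))
    rw [dg_union hd, hP2.dgt] at this
    exact dg_pos.mp (by omega)
  refine TwoC.term h hs.ne ?_
  ext v
  simp only [Finset.mem_inter, Finset.mem_insert, Finset.mem_singleton]
  constructor
  · rintro ⟨h1, h2⟩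
    exact spx_common hs hF1 hP2E h1 h2
  · rintro (rfl | rfl)
    · exact ⟨ha1, ha⟩
    · exact ⟨hb1, hb⟩

section

variable [Fintype E]

/-- A good circuit inside one side is good. -/
theorem spx_side {p : E → ℕ} (hp : D.TwoC (supp p)) {E1 E2 P2 C : Finset E} {a b : W}
    (hs : D.Sep (supp p) E1 E2 a b) (hP2 : D.IsPth P2 a b) (hP2E : P2 ⊆ E2) {k : ℕ} (hk : k ≠ 0)
    (hC : D.Good (clo p E1 P2 k) C) (hC1 : C ⊆ E1) : D.Good p C := by
  obtain ⟨h1, h2, h3⟩ := hC
  have hE1 : E1 ⊆ supp p := by rw [← hs.un]; exact Finset.subset_union_left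
  have hE2 : E2 ⊆ supp p := by rw [← hs.un]; exact Finset.subset_union_right
  have hCp : C ⊆ supp p := hC1.trans hE1
  set F1 := E1.filter fun e => sub p C e ≠ 0 with hF1
  have hF1E : F1 ⊆ E1 := Finset.filter_subset _ _
  have e1 : supp (sub (clo p E1 P2 k) C) = F1 ∪ P2 := by
    ext e
    rw [mem_supp, Finset.mem_union, hF1, Finset.mem_filter, sub_apply, sub_apply]
    by_cases h4 : e ∈ E1
    · have h5 : e ∉ E2 := Finset.disjoint_left.mp hs.dis h4
      have h6 : e ∉ P2 := fun h => h5 (hP2E h)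
      simp [clo, h4, h6]
    · have h7 : e ∉ C := fun h => h4 (hC1 h)
      by_cases h6 : e ∈ P2 <;> simp [clo, h4, h6, h7, hk]
  have e2 : supp (sub p C) = F1 ∪ E2 := by
    ext e
    rw [mem_supp, Finset.mem_union, hF1, Finset.mem_filter]
    by_cases h4 : e ∈ E1
    · have h5 : e ∉ E2 := Finset.disjoint_left.mp hs.dis h4
      simp [h4, h5]
    · have h7 : e ∉ C := fun h => h4 (hC1 h)
      rw [sub_not_mem h7]
      by_cases h6 : e ∈ E2
      · simpa [h6] using mem_supp.mp (hE2 h6)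
      · simp only [h4, h6, false_and, or_self, iff_false, not_not]
        by_contra h
        have := mem_supp.mpr h
        rw [← hs.un, Finset.mem_union] at this
        exact this.elim h4 h6
  rw [e1] at h3
  have ht1 := spx_piece hs hP2 hP2E hF1E h3
  have ht2 := spx_term hp (spx_symm hs)
  refine ⟨h1, hCp, ?_⟩
  rw [e2]
  exact Term.twoC ht1 ht2 (hs.dis.mono_left hF1E) fun v hv1 hv2 =>
    spx_common hs hF1E (subset_refl E2) hv1 hv2

end

end BDu
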